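import Pool.Agent.Run7.h386.GM.Cst2

/-!
Sums with dilates by the products of arbitrary pairwise coprime integers.
-/

set_option autoImplicit false

namespace Pool.Agent.Run7.h386.GM

open Finset Pool.Agent.Run7.h386.GL Pool.Agent.TH83.SQ
open scoped Pointwise Classical

/-- pairwise coprime integers `≥ 2` -/
structure Adm (P : Finset ℕ) : Prop where
  two : ∀ m ∈ P, 2 ≤ m
  cop : ∀ m ∈ P, ∀ m' ∈ P, m ≠ m' → Nat.Coprime m m'

lemma Adm.mono {P P' : Finset ℕ} (h : Adm P) (hs : P' ⊆ P) : Adm P' :=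
  ⟨fun m hm => h.two m (hs hm), fun m hm m' hm' => h.cop m (hs hm) m' (hs hm')⟩

theorem tau_ge2 {δ R : ℝ} (hδ : 0 < δ) (hδ1 : δ < 1) (hR : 0 < R) (C : Cst2 δ R) :
    ∀ (n : ℕ) (P : Finset ℕ), P.card = n → Adm P → ∀ X B : Finset ℤ, X.Nonempty → B.Nonempty →
      bd δ R C.c P.card (Sz X B) ≤ tau P X B := by
  intro n
  have hl : 0 < Real.log 2 := Real.log_pos (by norm_num)
  induction n with
  | zero =>
    intro P hn _ X B hX hB
    exact (bd_small hδ hR C.c (by omega) (Sz_nonneg X B)).trans (tau_nonneg _ _ _)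
  | succ n ih0 =>
    intro P0 hn hA X B hX hB
    by_cases hj : P0.card ≤ C.c.j₀
    · exact (bd_small hδ hR C.c hj (Sz_nonneg X B)).trans (tau_nonneg _ _ _)
    push Not at hj
    obtain ⟨m, hm, q, a, hq, ha, hqm, P₁, hP₁, hP₁c, hinj⟩ := exists_generic2 C.D P0 hA.two hA.cop
      (lt_of_le_of_lt C.hJ hj)
    set P := P0.erase m with hPdef
    have hP0 : P0 = insert m P := (Finset.insert_erase hm).symm
    have hmP : m ∉ P := Finset.notMem_erase m P0
    have hPc : P.card = n := by rw [hPdef, Finset.card_erase_of_mem hm]; omega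
    have hAP : Adm P := hA.mono (Finset.erase_subset _ _)
    have ih : ∀ X B : Finset ℤ, X.Nonempty → B.Nonempty →
      bd δ R C.c P.card (Sz X B) ≤ tau P X B := ih0 P hPc hAP
    have hcqa : ∀ x ∈ P, Nat.Coprime x (q ^ a) := by
      intro x hx
      have h1 := hA.cop x (Finset.mem_of_mem_erase hx) m hm (Finset.ne_of_mem_erase hx)
      exact Nat.Coprime.coprime_dvd_right hqm h1
    have hcq : ∀ x ∈ P, Nat.Coprime x q := by
      intro x hx
      exact (Nat.coprime_pow_right_iff (by omega) x q).1 (hcqa x hx)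
    have hgen : ∀ r : ZMod (q ^ a),
        C.D * (P.powerset.filter fun s => ((pr s : ℤ) : ZMod (q ^ a)) = r).card ≤
          2 * 2 ^ P.card := by
      intro r
      have := gen2 P P₁ hP₁ hcqa hinj r
      rw [hP₁c] at this
      exact this
    have hm0 : (m : ℤ) ≠ 0 := by
      have := hA.two m hm
      exact_mod_cast (by omega : m ≠ 0)
    rw [hP0, Finset.card_insert_of_notMem hmP]
    by_cases hS : Sz X B ≤ Real.log C.c.K₀
    · exact (bd_low hδ hR C.c (Sz_nonneg X B) hS).trans (tau_nonneg _ _ _)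
    push Not at hS
    have hK0 : (0 : ℝ) < C.c.K₀ := by
      have := C.c.K₀2
      exact_mod_cast (by omega : 0 < C.c.K₀)
    have cX : (0 : ℝ) < X.card := by exact_mod_cast hX.card_pos
    have cB : (0 : ℝ) < B.card := by exact_mod_cast hB.card_pos
    have hbig : C.c.K₀ ≤ X.card * B.card := by
      have h1 : Real.log C.c.K₀ < Real.log (X.card * B.card) := by
        rw [Real.log_mul cX.ne' cB.ne']; exact hS
      have h2 := (Real.log_lt_log_iff hK0 (mul_pos cX cB)).1 h1
      exact_mod_cast h2.le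
    -- the level
    have hex : ∃ J : ℕ, mx ((q : ℤ) ^ J) X * mx ((q : ℤ) ^ J) B * C.c.K₀ ≤ X.card * B.card := by
      obtain ⟨J₁, h1⟩ := mx_large hq.two_le X
      obtain ⟨J₂, h2⟩ := mx_large hq.two_le B
      refine ⟨max J₁ J₂, ?_⟩
      calc mx ((q : ℤ) ^ max J₁ J₂) X * mx ((q : ℤ) ^ max J₁ J₂) B * C.c.K₀ ≤ 1 * 1 * C.c.K₀ :=
            Nat.mul_le_mul_right _ (Nat.mul_le_mul (h1 _ (le_max_left _ _))
              (h2 _ (le_max_right _ _)))
        _ ≤ _ := by rw [one_mul, one_mul]; exact hbig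
    obtain ⟨I, hI, hI'⟩ : ∃ I : ℕ,
        mx ((q : ℤ) ^ (I + 1)) X * mx ((q : ℤ) ^ (I + 1)) B * C.c.K₀ ≤ X.card * B.card ∧
        X.card * B.card < mx ((q : ℤ) ^ I) X * mx ((q : ℤ) ^ I) B * C.c.K₀ := by
      classical
      have h1 := Nat.find_spec hex
      have h2 : Nat.find hex ≠ 0 := by
        intro h0
        rw [h0, pow_zero, mx_one' hX, mx_one' hB] at h1
        have h3 : 0 < X.card * B.card := Nat.mul_pos hX.card_pos hB.card_pos
        have := C.c.K₀2
        nlinarith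
      obtain ⟨I, hIe⟩ := Nat.exists_eq_succ_of_ne_zero h2
      refine ⟨I, ?_, ?_⟩
      · rw [hIe] at h1; exact h1
      · have := Nat.find_min hex (m := I) (by rw [hIe]; exact Nat.lt_succ_self I)
        exact not_le.1 this
    -- the heavy class of `X`
    obtain ⟨x₀, hx₀, hx₀m⟩ := exists_mx ((q : ℤ) ^ I) hX
    have hheavy : X.card ≤ (cls ((q : ℤ) ^ I) X x₀).card * C.c.K₀ := by
      rw [hx₀m]
      by_contra hcon
      push Not at hcon
      have h1 := mx_le ((q : ℤ) ^ I) B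
      have h2 : mx ((q : ℤ) ^ I) X * mx ((q : ℤ) ^ I) B * C.c.K₀ ≤
          mx ((q : ℤ) ^ I) X * B.card * C.c.K₀ :=
        Nat.mul_le_mul_right _ (Nat.mul_le_mul_left _ h1)
      have h3 : mx ((q : ℤ) ^ I) X * B.card * C.c.K₀ = mx ((q : ℤ) ^ I) X * C.c.K₀ * B.card := by
        ring
      have h4 : mx ((q : ℤ) ^ I) X * C.c.K₀ * B.card ≤ X.card * B.card :=
        Nat.mul_le_mul_right _ hcon.le
      omega
    -- the selections
    obtain ⟨iX, V, hV, hVn, hVi, hV1, hV2⟩ := sel ((q : ℤ) ^ (I + a)) X hX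
    obtain ⟨iB, Y, hY, hYn, hYi, hY1, hY2⟩ := sel ((q : ℤ) ^ (I + a)) B hB
    obtain ⟨hVl, hVk, hVc⟩ := sel_log hX hV hVn hVi hV1 hV2
    obtain ⟨hYl, hYk, hYc⟩ := sel_log hB hY hYn hYi hY1 hY2
    have hδ' : 0 ≤ 1 - δ := by linarith
    have hVc' : (V.card : ℝ) ≤ 2 ^ (iX + 1) := by exact_mod_cast hVc
    have hYc' : (Y.card : ℝ) ≤ 2 ^ (iB + 1) := by exact_mod_cast hYc
    rw [tau_insert hmP]
    by_cases hiB : C.c.MB ≤ iB
    · -- the second summand has large residue entropy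
      obtain ⟨hB1, hB2⟩ := C.c.hMB iB hiB
      have h0 := ih X B hX hB
      have hQ : (q : ℤ) ^ (I + a) ∣ m * (q : ℤ) ^ I := by
        rw [pow_add, mul_comm]
        refine mul_dvd_mul_right ?_ _
        exact_mod_cast hqm
      have hcI := caseI2 hQ P X B x₀ hx₀ Y hY hYn hYi
      refine bd_comb hR C.c (S' := Sz X B - iB * Real.log 2) (g := Real.log Y.card -
        (1 - δ) * (Real.log C.c.K₀ + Real.log 2)) (by linarith) ?_ h0 (le_trans ?_ hcI)
      · have hk : 0 ≤ δ * (Real.log C.c.K₀ + Real.log 2) :=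
          mul_nonneg hδ.le (add_nonneg (Real.log_natCast_nonneg _) hl.le)
        linarith
      · have h1 : ∀ t ∈ Y, (1 - δ) * (Sz X B - Real.log C.c.K₀ - (iB + 1) * Real.log 2) -
            Real.log C.c.K₀ - (R / 2) * Real.exp ((C.c.j₀ : ℝ) / 2) *
            Real.exp (2 / R * (Sz X B - iB * Real.log 2) - (P.card : ℝ) / 2) ≤
            tau P (dil m (cls ((q : ℤ) ^ I) X x₀)) (cls ((q : ℤ) ^ (I + a)) B t) := by
          intro t ht
          obtain ⟨h2, h3⟩ := hYl t ht
          have hn1 : (cls ((q : ℤ) ^ I) X x₀).Nonempty := cls_nonempty _ hx₀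
          have h4 := ih (dil m (cls ((q : ℤ) ^ I) X x₀)) (cls ((q : ℤ) ^ (I + a)) B t)
            (dil_nonempty hn1) (cls_nonempty _ (hY ht))
          refine le_trans ?_ h4
          have h5 : Sz (dil m (cls ((q : ℤ) ^ I) X x₀)) (cls ((q : ℤ) ^ (I + a)) B t) =
              Real.log (cls ((q : ℤ) ^ I) X x₀).card +
                Real.log (cls ((q : ℤ) ^ (I + a)) B t).card := by
            unfold Sz
            rw [card_dil hm0]
          have cc : (0 : ℝ) < (cls ((q : ℤ) ^ I) X x₀).card := by exact_mod_cast hn1.card_pos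
          have h6 : Real.log (cls ((q : ℤ) ^ I) X x₀).card ≤ Real.log X.card :=
            Real.log_le_log cc (by exact_mod_cast Finset.card_le_card (cls_sub _ _ _))
          have h7 : Real.log X.card ≤ Real.log (cls ((q : ℤ) ^ I) X x₀).card +
              Real.log C.c.K₀ := by
            rw [← Real.log_mul cc.ne' hK0.ne']
            exact Real.log_le_log cX (by exact_mod_cast hheavy)
          apply bd_mono hR C.c
          · apply mul_le_mul_of_nonneg_left _ hδ'
            rw [h5]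
            unfold Sz
            linarith
          · rw [h5]
            unfold Sz
            linarith
        have h2 := avg_ge hYn h1
        unfold bd
        nlinarith
    push Not at hiB
    by_cases hiX : C.c.MX ≤ iX
    · -- the first summand has large residue entropy
      obtain ⟨hX1, hX2⟩ := C.c.hMX iX hiX
      have h0 := ih (dil m X) B (dil_nonempty hX) hB
      have h0' : Sz (dil m X) B = Sz X B := by unfold Sz; rw [card_dil hm0]
      rw [h0'] at h0
      obtain ⟨b₀, hb₀⟩ := hYn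
      have hcI := caseIIa' P hcq X B (I + a) V hV hVn hVi
        b₀ (hY hb₀)
      rw [add_comm (tau P X B)]
      have hiB' : (iB : ℝ) + 1 ≤ C.c.MB := by exact_mod_cast hiB
      refine bd_comb hR C.c (S' := Sz X B - iX * Real.log 2) (g := Real.log V.card -
        (1 - δ) * ((C.c.MB + 1) * Real.log 2)) (by linarith) ?_ h0 (le_trans ?_ hcI)
      · have hk : 0 ≤ δ * (((C.c.MB : ℝ) + 1) * Real.log 2) := by positivity
        linarith
      · obtain ⟨h8, h9⟩ := hYl b₀ hb₀
        have h1 : ∀ t ∈ V, (1 - δ) * (Sz X B - (iX + 1) * Real.log 2 - (iB + 1) * Real.log 2) -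
            Real.log C.c.K₀ - (R / 2) * Real.exp ((C.c.j₀ : ℝ) / 2) *
            Real.exp (2 / R * (Sz X B - iX * Real.log 2) - (P.card : ℝ) / 2) ≤
            tau P (cls ((q : ℤ) ^ (I + a)) X t) (cls ((q : ℤ) ^ (I + a)) B b₀) := by
          intro t ht
          obtain ⟨h2, h3⟩ := hVl t ht
          have h4 := ih (cls ((q : ℤ) ^ (I + a)) X t) (cls ((q : ℤ) ^ (I + a)) B b₀)
            (cls_nonempty _ (hV ht)) (cls_nonempty _ (hY hb₀))
          refine le_trans ?_ h4
          have h10 : 0 ≤ iB * Real.log 2 := by positivity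
          apply bd_mono hR C.c
          · apply mul_le_mul_of_nonneg_left _ hδ'
            unfold Sz
            linarith
          · unfold Sz
            linarith
        have h2 := avg_ge hVn h1
        have h10 : (1 - δ) * ((iB + 1) * Real.log 2) ≤ (1 - δ) * (C.c.MB * Real.log 2) :=
          mul_le_mul_of_nonneg_left (mul_le_mul_of_nonneg_right hiB' hl.le) hδ'
        unfold bd
        nlinarith
    push Not at hiX
    -- both small: generic dilates
    have h0 := ih (dil m X) B (dil_nonempty hX) hB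
    have h0' : Sz (dil m X) B = Sz X B := by unfold Sz; rw [card_dil hm0]
    rw [h0'] at h0
    have hβ : 2 * ((V.card : ℝ) * Y.card) ^ 2 ≤ δ / 2 * C.D := by
      have h1 : (2 : ℝ) ^ (iX + 1) ≤ 2 ^ C.c.MX :=
        pow_le_pow_right₀ (by norm_num) (by omega)
      have h2 : (2 : ℝ) ^ (iB + 1) ≤ 2 ^ C.c.MB :=
        pow_le_pow_right₀ (by norm_num) (by omega)
      have h3 : (V.card : ℝ) * Y.card ≤ 2 ^ C.c.MX * 2 ^ C.c.MB :=
        mul_le_mul (hVc'.trans h1) (hYc'.trans h2) (Nat.cast_nonneg _)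
          (pow_nonneg (by norm_num) _)
      have h4 : ((V.card : ℝ) * Y.card) ^ 2 ≤ (2 ^ C.c.MX * 2 ^ C.c.MB) ^ 2 :=
        pow_le_pow_left₀ (mul_nonneg (Nat.cast_nonneg _) (Nat.cast_nonneg _)) h3 2
      linarith [C.hD]
    -- the restricted sets
    obtain ⟨X', hX'⟩ : ∃ Z : Finset ℤ, Z = V.biUnion (cls ((q : ℤ) ^ (I + a)) X) := ⟨_, rfl⟩
    obtain ⟨B', hB'⟩ : ∃ Z : Finset ℤ, Z = Y.biUnion (cls ((q : ℤ) ^ (I + a)) B) := ⟨_, rfl⟩
    have hX'X : X' ⊆ X := by rw [hX']; exact Finset.biUnion_subset.2 fun t _ => cls_sub _ _ _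
    have hB'B : B' ⊆ B := by rw [hB']; exact Finset.biUnion_subset.2 fun t _ => cls_sub _ _ _
    have hX'n : X'.Nonempty := by
      obtain ⟨t, ht⟩ := hVn
      rw [hX']
      exact ⟨t, Finset.mem_biUnion.2 ⟨t, ht, self_mem_cls _ (hV ht)⟩⟩
    have hB'n : B'.Nonempty := by
      obtain ⟨t, ht⟩ := hYn
      rw [hB']
      exact ⟨t, Finset.mem_biUnion.2 ⟨t, ht, self_mem_cls _ (hY ht)⟩⟩
    have hX'l := sel_union hX hVn hVi (fun t ht => (hV1 t ht).1) hV2
    have hB'l := sel_union hB hYn hYi (fun t ht => (hY1 t ht).1) hY2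
    rw [← hX'] at hX'l
    rw [← hB'] at hB'l
    have hΛ := C.hΛ iX iB hiX hiB
    have hV' : ∀ x ∈ X', ∃ t ∈ V, (q : ℤ) ^ (I + a) ∣ x - t := by
      intro x hx
      rw [hX'] at hx
      obtain ⟨t, ht, hx⟩ := Finset.mem_biUnion.1 hx
      exact ⟨t, ht, (Finset.mem_filter.1 hx).2⟩
    have hY' : ∀ x ∈ B', ∃ t ∈ Y, (q : ℤ) ^ (I + a) ∣ x - t := by
      intro x hx
      rw [hB'] at hx
      obtain ⟨t, ht, hx⟩ := Finset.mem_biUnion.1 hx
      exact ⟨t, ht, (Finset.mem_filter.1 hx).2⟩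
    -- the second selections
    obtain ⟨nX, T, hT, hTn, hTi, hT1, hT2⟩ := sel ((q : ℤ) ^ (I + 1)) X' hX'n
    obtain ⟨nB, U, hU, hUn, hUi, hU1, hU2⟩ := sel ((q : ℤ) ^ (I + 1)) B' hB'n
    obtain ⟨hTl, hTk, _⟩ := sel_log hX'n hT hTn hTi hT1 hT2
    obtain ⟨hUl, hUk, _⟩ := sel_log hB'n hU hUn hUi hU1 hU2
    have cX' : (0 : ℝ) < X'.card := by exact_mod_cast hX'n.card_pos
    have cB' : (0 : ℝ) < B'.card := by exact_mod_cast hB'n.card_pos
    have lX' : Real.log X'.card ≤ Real.log X.card :=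
      Real.log_le_log cX' (by exact_mod_cast Finset.card_le_card hX'X)
    have lB' : Real.log B'.card ≤ Real.log B.card :=
      Real.log_le_log cB' (by exact_mod_cast Finset.card_le_card hB'B)
    have hsum : Real.log C.c.K₀ - C.Λ ≤ (nX + nB + 2) * Real.log 2 := by
      obtain ⟨t, ht⟩ := hTn
      obtain ⟨v, hv⟩ := hUn
      have hsubX : (cls ((q : ℤ) ^ (I + 1)) X' t).card ≤ mx ((q : ℤ) ^ (I + 1)) X :=
        (Finset.card_le_card (Finset.filter_subset_filter _ hX'X)).trans (le_mx _ (hX'X (hT ht)))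
      have hsubB : (cls ((q : ℤ) ^ (I + 1)) B' v).card ≤ mx ((q : ℤ) ^ (I + 1)) B :=
        (Finset.card_le_card (Finset.filter_subset_filter _ hB'B)).trans (le_mx _ (hB'B (hU hv)))
      have c1 : (0 : ℝ) < (cls ((q : ℤ) ^ (I + 1)) X' t).card := by
        exact_mod_cast (cls_nonempty _ (hT ht)).card_pos
      have c2 : (0 : ℝ) < (cls ((q : ℤ) ^ (I + 1)) B' v).card := by
        exact_mod_cast (cls_nonempty _ (hU hv)).card_pos
      have c3 : (0 : ℝ) < mx ((q : ℤ) ^ (I + 1)) X := lt_of_lt_of_le c1 (by exact_mod_cast hsubX)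
      have c4 : (0 : ℝ) < mx ((q : ℤ) ^ (I + 1)) B := lt_of_lt_of_le c2 (by exact_mod_cast hsubB)
      have h1 := (hTl t ht).1
      have h2 := (hUl v hv).1
      have h3 : Real.log (cls ((q : ℤ) ^ (I + 1)) X' t).card ≤
          Real.log (mx ((q : ℤ) ^ (I + 1)) X) := Real.log_le_log c1 (by exact_mod_cast hsubX)
      have h4 : Real.log (cls ((q : ℤ) ^ (I + 1)) B' v).card ≤
          Real.log (mx ((q : ℤ) ^ (I + 1)) B) := Real.log_le_log c2 (by exact_mod_cast hsubB)
      have h5 : Real.log (mx ((q : ℤ) ^ (I + 1)) X) + Real.log (mx ((q : ℤ) ^ (I + 1)) B) +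
          Real.log C.c.K₀ ≤ Real.log X.card + Real.log B.card := by
        rw [← Real.log_mul c3.ne' c4.ne', ← Real.log_mul (mul_pos c3 c4).ne' hK0.ne',
          ← Real.log_mul cX.ne' cB.ne']
        refine Real.log_le_log (mul_pos (mul_pos c3 c4) hK0) ?_
        exact_mod_cast hI
      linarith
    obtain ⟨hnum, hRsum⟩ := C.hK₁ nX nB hsum
    have hcI := (caseIIb2 hq ha P C.D hgen X' B' V hVn hV' Y hYn hY' T hT hTn hTi
      U hU hUn hUi (δ / 2) hβ).trans (tau_mono hX'X hB'B hX'n hB'n)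
    rw [add_comm (tau P X B)]
    refine bd_comb hR C.c (S' := Sz X B - (nX + nB) * Real.log 2)
      (g := (1 - δ / 2) * (Real.log T.card + Real.log U.card) - (1 - δ) * (2 * Real.log 2 + C.Λ))
      (by linarith) ?_ h0 (le_trans ?_ hcI)
    · have hx1 : (1 - δ / 2) * (nX * Real.log 2 - psi nX + (nB * Real.log 2 - psi nB)) ≤
          (1 - δ / 2) * (Real.log T.card + Real.log U.card) :=
        mul_le_mul_of_nonneg_left (by linarith) (by linarith)
      have hps1 : 0 ≤ psi nX := Real.log_nonneg (by nlinarith [(Nat.cast_nonneg nX : (0:ℝ) ≤ nX)])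
      have hps2 : 0 ≤ psi nB := Real.log_nonneg (by nlinarith [(Nat.cast_nonneg nB : (0:ℝ) ≤ nB)])
      have hps3 : 0 ≤ δ * (psi nX + psi nB) := by positivity
      have hps4 : 0 ≤ δ * (2 * Real.log 2 + C.Λ) :=
        mul_nonneg hδ.le (add_nonneg (by positivity) C.Λ0)
      nlinarith
    · have h1 : ∀ t ∈ T, (1 - δ) * (Sz X B - C.Λ - (nX + nB + 2) * Real.log 2) -
          Real.log C.c.K₀ - (R / 2) * Real.exp ((C.c.j₀ : ℝ) / 2) *
          Real.exp (2 / R * (Sz X B - (nX + nB) * Real.log 2) - (P.card : ℝ) / 2) ≤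
          (∑ v ∈ U, tau P (cls ((q : ℤ) ^ (I + 1)) X' t) (cls ((q : ℤ) ^ (I + 1)) B' v)) /
            U.card := by
        intro t ht
        obtain ⟨h2, h3⟩ := hTl t ht
        apply avg_ge hUn
        intro v hv
        obtain ⟨h8, h9⟩ := hUl v hv
        have h4 := ih (cls ((q : ℤ) ^ (I + 1)) X' t) (cls ((q : ℤ) ^ (I + 1)) B' v)
          (cls_nonempty _ (hT ht)) (cls_nonempty _ (hU hv))
        refine le_trans ?_ h4
        apply bd_mono hR C.c
        · apply mul_le_mul_of_nonneg_left _ hδ'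
          unfold Sz
          linarith
        · unfold Sz
          linarith
      have h2 := avg_ge hTn h1
      have h3 : (∑ t ∈ T, (∑ v ∈ U, tau P (cls ((q : ℤ) ^ (I + 1)) X' t)
          (cls ((q : ℤ) ^ (I + 1)) B' v)) / U.card) / T.card =
          (∑ t ∈ T, ∑ v ∈ U, tau P (cls ((q : ℤ) ^ (I + 1)) X' t)
            (cls ((q : ℤ) ^ (I + 1)) B' v)) / (T.card * U.card) := by
        rw [← Finset.sum_div, div_div, mul_comm (U.card : ℝ)]
      rw [h3] at h2
      unfold bd
      have h4 : (1 - δ) * (Sz X B - C.Λ - (nX + nB + 2) * Real.log 2) =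
          (1 - δ) * (Sz X B - (nX + nB) * Real.log 2) - (1 - δ) * (2 * Real.log 2 + C.Λ) := by
        ring
      rw [h4] at h2
      linarith

/-- some dilate by a product of members of `P` has a large sum set -/
theorem dilates2 (δ θ : ℝ) (hδ : 0 < δ) (hθ : 0 < θ) :
    ∃ C : ℝ, ∀ P : Finset ℕ, Adm P → ∀ X B : Finset ℤ, X.Nonempty → B.Nonempty →
      θ * (Real.log X.card + Real.log B.card) ≤ P.card →
      ∃ s ⊆ P, (1 - δ) * (Real.log X.card + Real.log B.card) - C ≤
        Real.log ((dil (pr s) X + B).card : ℝ) := by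
  have hδm : (0 : ℝ) < min δ (1 / 2) := lt_min hδ (by norm_num)
  have hδ1 : min δ (1 / 2) < 1 := lt_of_le_of_lt (min_le_right _ _) (by norm_num)
  have hθ4 : (0 : ℝ) < 4 / θ := by positivity
  obtain ⟨C₀⟩ := exists_cst2 (min δ (1 / 2)) (4 / θ) hδm hδ1.le hθ4
  refine ⟨Real.log C₀.c.K₀ + (4 / θ / 2) * Real.exp ((C₀.c.j₀ : ℝ) / 2), ?_⟩
  intro P hP X B hX hB hS
  have h := tau_ge2 hδm hδ1 hθ4 C₀ P.card P rfl hP X B hX hB
  by_contra hcon
  push Not at hcon
  have hS0 : 0 ≤ Sz X B := Sz_nonneg X B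
  have h1 : (1 - δ) * (Real.log X.card + Real.log B.card) -
      (Real.log C₀.c.K₀ + (4 / θ / 2) * Real.exp ((C₀.c.j₀ : ℝ) / 2)) ≤
      bd (min δ (1 / 2)) (4 / θ) C₀.c P.card (Sz X B) := by
    unfold bd
    have h2 : Real.exp (2 / (4 / θ) * Sz X B - (P.card : ℝ) / 2) ≤ 1 := by
      rw [Real.exp_le_one_iff]
      have h3 : 2 / (4 / θ) * Sz X B = θ * (Real.log X.card + Real.log B.card) / 2 := by
        unfold Sz
        field_simp; ring
      rw [h3]
      linarith
    have h4 : (4 / θ / 2) * Real.exp ((C₀.c.j₀ : ℝ) / 2) *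
        Real.exp (2 / (4 / θ) * Sz X B - (P.card : ℝ) / 2) ≤
        (4 / θ / 2) * Real.exp ((C₀.c.j₀ : ℝ) / 2) * 1 :=
      mul_le_mul_of_nonneg_left h2 (by positivity)
    have h5 : (1 - δ) * Sz X B ≤ (1 - min δ (1 / 2)) * Sz X B :=
      mul_le_mul_of_nonneg_right (by have := min_le_left δ (1 / 2); linarith) hS0
    have h6 : Sz X B = Real.log X.card + Real.log B.card := rfl
    rw [← h6]
    linarith
  have h7 : tau P X B < (1 - δ) * (Real.log X.card + Real.log B.card) -
      (Real.log C₀.c.K₀ + (4 / θ / 2) * Real.exp ((C₀.c.j₀ : ℝ) / 2)) := by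
    unfold tau
    rw [div_lt_iff₀ (by positivity)]
    have h8 : ∑ s ∈ P.powerset, Real.log ((dil (pr s) X + B).card : ℝ) <
        ∑ s ∈ P.powerset, ((1 - δ) * (Real.log X.card + Real.log B.card) -
          (Real.log C₀.c.K₀ + (4 / θ / 2) * Real.exp ((C₀.c.j₀ : ℝ) / 2))) :=
      Finset.sum_lt_sum_of_nonempty ⟨∅, by simp⟩ fun s hs => hcon s (Finset.mem_powerset.1 hs)
    rw [Finset.sum_const, Finset.card_powerset, nsmul_eq_mul] at h8
    push_cast at h8
    linarith
  linarith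

end Pool.Agent.Run7.h386.GM
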