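import Pool.Agent.Run7.h386.GL.Cube
import Pool.Agent.Run7.h386.GM.Dil3

/-!
Cubes in a finite set of integers closed under gcd and lcm.
-/

set_option autoImplicit false

namespace Pool.Agent.Run7.h386.GM

open Finset Pool.Agent.Run7.h386.GL
open scoped Classical

/-- the cube of a set of maximal prime filters -/
theorem cube2 {A : Finset ℕ} (hA : Lat A)
    (X : Finset ℕ) (hX : X.Nonempty) (hXA : X ⊆ A) (M : Finset (Finset ℕ))
    (hM : ∀ a ∈ X, M ⊆ ub A a) :
    ∃ P : Finset ℕ, P.card = M.card ∧ Adm P ∧ ∀ a ∈ X, ∀ s ⊆ P, a * ∏ x ∈ s, x ∈ A := by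
  obtain ⟨a₀, ha₀⟩ := hX
  have ha₀A := hXA ha₀
  have hM0 := hM a₀ ha₀
  have hinj : Set.InjOn (rt a₀) (M : Set (Finset ℕ)) := by
    intro D hD D' hD' h
    by_contra hne
    have h1 := hA.rt_coprime ha₀A (hM0 hD) (hM0 hD') hne
    rw [h, Nat.coprime_self] at h1
    have h2 := hA.two_le_rt ha₀A (hM0 hD')
    omega
  have hcop : ∀ m ∈ M.image (rt a₀), ∀ m' ∈ M.image (rt a₀), m ≠ m' → Nat.Coprime m m' := by
    intro m hm m' hm' hne
    obtain ⟨D, hD, rfl⟩ := Finset.mem_image.1 hm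
    obtain ⟨D', hD', rfl⟩ := Finset.mem_image.1 hm'
    exact hA.rt_coprime ha₀A (hM0 hD) (hM0 hD') fun h => hne (by rw [h])
  refine ⟨M.image (rt a₀), Finset.card_image_of_injOn hinj, ⟨?_, hcop⟩, ?_⟩
  · intro m hm
    obtain ⟨D, hD, rfl⟩ := Finset.mem_image.1 hm
    exact hA.two_le_rt ha₀A (hM0 hD)
  · intro a ha s
    have haA := hXA ha
    induction s using Finset.induction_on with
    | empty => intro _; simpa using haA
    | insert x s hxs ih =>
      intro hs
      have h1 := ih fun y hy => hs (Finset.mem_insert_of_mem hy)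
      have hx := hs (Finset.mem_insert_self x s)
      have h2 : a * x ∈ A := by
        obtain ⟨D, hD, rfl⟩ := Finset.mem_image.1 hx
        rw [← hA.rt_indep haA ha₀A (hM a ha hD) (hM0 hD)]
        exact hA.mul_rt_mem haA (mem_ub.1 (hM0 hD)).1
      have h3 : Nat.Coprime x (∏ y ∈ s, y) := by
        refine Nat.Coprime.prod_right fun y hy => ?_
        exact hcop x hx y (hs (Finset.mem_insert_of_mem hy)) fun h => hxs (h ▸ hy)
      have h4 := hA.lcm _ h2 _ h1
      rw [Nat.lcm_mul_left, h3.lcm_eq_mul] at h4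
      rw [Finset.prod_insert hxs]
      exact h4

end Pool.Agent.Run7.h386.GM
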