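import Pool.Agent.Run7.h386.GL.Core
import Pool.Agent.Run7.h386.GM.Cube2

/-!
The isoperimetric inequality for the finite sets closed under gcd and lcm which have few prime
filters.
-/

set_option autoImplicit false

namespace Pool.Agent.Run7.h386.GM

open Finset Pool.Agent.TH83.SQ Pool.Agent.N811.IS
open Pool.Agent.Run7.h386.GL
open scoped Pointwise Classical

theorem core_large {θ κ C₁ ε₂ δ x τ t C₂ : ℝ} (hθ1 : θ < 1) (hκ0 : 0 ≤ κ)
    (hκ : κ < 1) (hC₁ : 1 ≤ C₁) (hε₂ : ε₂ = (1 - κ) / 4) (hδθ : δ ≤ 1 - θ) (hδ0 : 0 < δ)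
    (hδε : δ ≤ ε₂) (hx0 : 0 < x) (hx1 : x ≤ 1) (hx : x = ε₂ / (2 * C₁))
    (hlx : 0 < Real.log (1 / x)) (hτ : τ = ε₂ / (2 * C₁ * Real.log (1 / x))) (hτ0 : 0 < τ)
    (ht : (1 - θ) * t = 1) (ht0 : 0 < t)
    (hdil : ∀ P : Finset ℕ, Adm P → ∀ X B : Finset ℤ, X.Nonempty → B.Nonempty →
      τ / (2 * (1 + t)) * (Real.log X.card + Real.log B.card) ≤ P.card →
      ∃ s ⊆ P, (1 - δ) * (Real.log X.card + Real.log B.card) - C₂ ≤
        Real.log ((dil (pr s) X + B).card : ℝ))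
    {A : Finset ℕ} (hA : Lat A) (hne : A.Nonempty)
    {N L n : ℝ} (hN : N = (A.card : ℝ))
    (hL : L = Real.log N) (hn : n = ((DD A).card : ℝ)) (hnC : n ≤ C₁ * L) (hL2 : 2 ≤ L)
    (hLτ : 2 ≤ L * τ) :
    Real.exp (-(Real.log 2 + max C₂ 0)) * N ^ κ ≤ rho θ (ic A) := by
  have hN1 : 1 ≤ N := by rw [hN]; exact_mod_cast hne.card_pos
  have hN0 : 0 < N := by linarith
  have hLnn : 0 ≤ L := by linarith
  have hNe : N = Real.exp L := by rw [hL]; exact (Real.exp_log hN0).symm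
  have hε₂0 : 0 < ε₂ := by linarith
  have hε₂4 : ε₂ ≤ 1 / 4 := by rw [hε₂]; linarith
  have hC₁0 : 0 < C₁ := by linarith
  have hl20 : 0 < Real.log 2 := Real.log_pos (by norm_num)
  have hl2 : Real.log 2 < 1 := by
    have := Real.log_two_lt_d9
    linarith
  have hn0 : 0 ≤ n := by rw [hn]; exact Nat.cast_nonneg _
  have hLn : L ≤ n := by
    have h1 := hA.card_le
    have h2 : N ≤ 2 ^ (DD A).card := by rw [hN]; exact_mod_cast h1
    have h3 := Real.log_le_log hN0 h2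
    rw [Real.log_pow, ← hn, ← hL] at h3
    have h4 := mul_le_mul_of_nonneg_left hl2.le hn0
    linarith
  obtain ⟨w, hw⟩ : ∃ w : ℕ, w = ⌊τ * n⌋₊ := ⟨_, rfl⟩
  have hwle : (w : ℝ) ≤ τ * n := by rw [hw]; exact Nat.floor_le (mul_nonneg hτ0.le hn0)
  have hwge : τ * n - 1 < w := by
    have := Nat.lt_floor_add_one (τ * n)
    rw [← hw] at this
    linarith
  -- few small subsets
  have hsm : (((DD A).powerset.filter fun s => s.card ≤ w).card : ℝ) ≤ Real.exp (ε₂ * L) := by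
    refine (small_subsets (DD A) w hx0 hx1).trans (Real.exp_le_exp.2 ?_)
    rw [← hn]
    have h1 : (w : ℝ) * Real.log (1 / x) ≤ τ * n * Real.log (1 / x) :=
      mul_le_mul_of_nonneg_right hwle hlx.le
    have h2 : τ * n * Real.log (1 / x) = ε₂ / (2 * C₁) * n := by
      rw [hτ]; field_simp
    have h3 : x * n + ε₂ / (2 * C₁) * n = ε₂ / C₁ * n := by
      rw [hx]; field_simp; ring
    have h4 : ε₂ / C₁ * n ≤ ε₂ / C₁ * (C₁ * L) :=
      mul_le_mul_of_nonneg_left hnC (div_nonneg hε₂0.le hC₁0.le)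
    have h5 : ε₂ / C₁ * (C₁ * L) = ε₂ * L := by field_simp
    linarith
  have hK2 : 2 * Real.exp (ε₂ * L) ≤ (A.card : ℝ) := by
    have h1 : (2 : ℝ) = Real.exp (Real.log 2) := (Real.exp_log (by norm_num)).symm
    rw [← hN, hNe]
    calc 2 * Real.exp (ε₂ * L) = Real.exp (Real.log 2) * Real.exp (ε₂ * L) := by rw [← h1]
      _ = Real.exp (Real.log 2 + ε₂ * L) := (Real.exp_add _ _).symm
      _ ≤ _ := Real.exp_le_exp.2 (by nlinarith)
  obtain ⟨X, hXA, hXne, hXc, M, hMw, hM⟩ := hA.common A hne w (Real.exp (ε₂ * L))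
    (Real.one_le_exp (mul_nonneg hε₂0.le hLnn)) hsm hK2
  obtain ⟨P, hPc, hP, hcube⟩ := cube2 hA X hXne hXA M hM
  have cX : (0 : ℝ) < X.card := by exact_mod_cast hXne.card_pos
  have hlX : (1 - ε₂) * L - Real.log 2 ≤ Real.log X.card := by
    rw [← hN] at hXc
    have h0 : 0 < 2 * Real.exp (ε₂ * L) := mul_pos (by norm_num) (Real.exp_pos _)
    have h1 := Real.log_le_log (div_pos hN0 h0) hXc
    rw [Real.log_div hN0.ne' h0.ne', Real.log_mul (by norm_num) (Real.exp_ne_zero _),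
      Real.log_exp, ← hL] at h1
    linarith
  have hlX2 : Real.log X.card ≤ L := by
    rw [hL, hN]
    refine Real.log_le_log cX ?_
    exact_mod_cast Finset.card_le_card hXA
  -- the inequality
  refine le_rho fun B hB => ?_
  have cB : (0 : ℝ) < B.card := by exact_mod_cast hB.card_pos
  have cB1 : (1 : ℝ) ≤ B.card := by exact_mod_cast hB.card_pos
  have hlB0 : 0 ≤ Real.log B.card := Real.log_nonneg cB1
  have hsum0 : (0 : ℝ) < (ic A + B).card := by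
    exact_mod_cast ((ic_nonempty hne).add hB).card_pos
  have hmax0 : 0 ≤ max C₂ 0 := le_max_right _ _
  -- reduce to logarithms
  suffices hlog : κ * L - (Real.log 2 + max C₂ 0) + θ * Real.log B.card ≤
      Real.log (ic A + B).card by
    have h1 := Real.exp_le_exp.2 hlog
    rw [Real.exp_log hsum0] at h1
    refine le_trans (le_of_eq ?_) h1
    have e1 : Real.exp (κ * L) = N ^ κ := by rw [Real.rpow_def_of_pos hN0, mul_comm, hL]
    have e2 : Real.exp (θ * Real.log B.card) = (B.card : ℝ) ^ θ := by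
      rw [Real.rpow_def_of_pos cB, mul_comm]
    rw [Real.exp_add, sub_eq_add_neg, Real.exp_add, e1, e2]
    ring
  by_cases hBbig : t * L < Real.log B.card
  · -- large second summand
    have h1 : Real.log B.card ≤ Real.log (ic A + B).card := by
      refine Real.log_le_log cB ?_
      exact_mod_cast Finset.card_le_card_add_left (ic_nonempty hne)
    have h4 : 0 < 1 - θ := by linarith
    have h2 : L ≤ (1 - θ) * Real.log B.card := by
      calc L = (1 - θ) * (t * L) := by rw [← mul_assoc, ht, one_mul]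
        _ ≤ _ := mul_le_mul_of_nonneg_left hBbig.le h4.le
    have h3 : κ * L ≤ 1 * L := mul_le_mul_of_nonneg_right hκ.le hLnn
    linarith
  push Not at hBbig
  have hcond : τ / (2 * (1 + t)) * (Real.log (ic X).card + Real.log B.card) ≤ P.card := by
    rw [ic_card, hPc, hMw]
    have h1 : Real.log X.card + Real.log B.card ≤ (1 + t) * L := by linarith
    have h0 : 0 ≤ τ / (2 * (1 + t)) := by positivity
    have h2 : τ / (2 * (1 + t)) * (Real.log X.card + Real.log B.card) ≤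
        τ / (2 * (1 + t)) * ((1 + t) * L) := mul_le_mul_of_nonneg_left h1 h0
    have h3 : τ / (2 * (1 + t)) * ((1 + t) * L) = τ * L / 2 := by
      have : 1 + t ≠ 0 := by linarith
      field_simp
    have h4 : τ * L ≤ τ * n := mul_le_mul_of_nonneg_left hLn hτ0.le
    linarith
  obtain ⟨s, hs, hsc⟩ := hdil P hP (ic X) B (ic_nonempty hXne) hB hcond
  have hsub : dil (pr s) (ic X) ⊆ ic A := by
    intro z hz
    obtain ⟨y, hy, rfl⟩ := Finset.mem_image.1 hz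
    obtain ⟨a, ha, rfl⟩ := Finset.mem_image.1 hy
    refine Finset.mem_image.2 ⟨a * ∏ x ∈ s, x, hcube a ha s hs, ?_⟩
    unfold pr
    push_cast
    ring
  have h1 : Real.log (dil (pr s) (ic X) + B).card ≤ Real.log (ic A + B).card := by
    refine Real.log_le_log ?_ ?_
    · exact_mod_cast (((ic_nonempty hXne).image _).add hB).card_pos
    · exact_mod_cast Finset.card_le_card (Finset.add_subset_add_right hsub)
  rw [ic_card] at hsc
  have h2 : C₂ ≤ max C₂ 0 := le_max_left _ _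
  have hδ1 : 0 ≤ 1 - δ := by linarith
  have h3 : (1 - δ) * ((1 - ε₂) * L - Real.log 2) ≤ (1 - δ) * Real.log X.card :=
    mul_le_mul_of_nonneg_left hlX hδ1
  have h4 : θ * Real.log B.card ≤ (1 - δ) * Real.log B.card :=
    mul_le_mul_of_nonneg_right (by linarith) hlB0
  have h5 : κ * L ≤ (1 - δ) * ((1 - ε₂) * L) := by
    have h6 : κ ≤ (1 - δ) * (1 - ε₂) := by
      have h7 : 0 ≤ δ * ε₂ := mul_nonneg hδ0.le hε₂0.le
      have h8 : (1 - δ) * (1 - ε₂) = 1 - δ - ε₂ + δ * ε₂ := by ring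
      rw [h8]
      linarith
    calc κ * L ≤ (1 - δ) * (1 - ε₂) * L := mul_le_mul_of_nonneg_right h6 hLnn
      _ = _ := by ring
  have h6 : 0 ≤ δ * Real.log 2 := mul_nonneg hδ0.le hl20.le
  linarith

theorem core (θ κ C₀ : ℝ) (hθ1 : θ < 1) (hκ0 : 0 ≤ κ) (hκ : κ < 1) :
    ∃ c : ℝ, 0 < c ∧ ∀ A : Finset ℕ, Lat A → A.Nonempty →
      ((DD A).card : ℝ) ≤ C₀ * Real.log A.card → c * (A.card : ℝ) ^ κ ≤ rho θ (ic A) := by
  obtain ⟨C₁, hC₁, hC₀⟩ : ∃ C₁ : ℝ, 1 ≤ C₁ ∧ C₀ ≤ C₁ := ⟨max C₀ 1, le_max_right _ _, le_max_left _ _⟩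
  have hC₁0 : 0 < C₁ := by linarith
  obtain ⟨ε₂, hε₂⟩ : ∃ ε₂ : ℝ, ε₂ = (1 - κ) / 4 := ⟨_, rfl⟩
  have hε₂0 : 0 < ε₂ := by rw [hε₂]; linarith
  have hε₂4 : ε₂ ≤ 1 / 4 := by rw [hε₂]; linarith
  have hθ0 : 0 < 1 - θ := by linarith
  obtain ⟨δ, hδ0, hδθ, hδε⟩ : ∃ δ : ℝ, 0 < δ ∧ δ ≤ 1 - θ ∧ δ ≤ ε₂ :=
    ⟨min (1 - θ) ε₂, lt_min hθ0 hε₂0, min_le_left _ _, min_le_right _ _⟩
  obtain ⟨x, hx⟩ : ∃ x : ℝ, x = ε₂ / (2 * C₁) := ⟨_, rfl⟩
  have hx0 : 0 < x := by rw [hx]; positivity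
  have hx1 : x ≤ 1 / 8 := by
    rw [hx, div_le_iff₀ (by positivity)]
    nlinarith
  have hlx : 0 < Real.log (1 / x) := by
    apply Real.log_pos
    rw [lt_div_iff₀ hx0]
    linarith
  obtain ⟨τ, hτ⟩ : ∃ τ : ℝ, τ = ε₂ / (2 * C₁ * Real.log (1 / x)) := ⟨_, rfl⟩
  have hτ0 : 0 < τ := by rw [hτ]; positivity
  obtain ⟨t, ht⟩ : ∃ t : ℝ, t = 1 / (1 - θ) := ⟨_, rfl⟩
  have ht0 : 0 < t := by rw [ht]; positivity
  have ht1 : (1 - θ) * t = 1 := by rw [ht]; field_simp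
  obtain ⟨C₂, hC₂⟩ := dilates2 δ (τ / (2 * (1 + t))) hδ0 (by positivity)
  obtain ⟨L₀, hL₀1, hL₀2⟩ : ∃ L₀ : ℝ, 2 / τ ≤ L₀ ∧ 2 ≤ L₀ :=
    ⟨max (2 / τ) 2, le_max_left _ _, le_max_right _ _⟩
  refine ⟨min (Real.exp (-(Real.log 2 + max C₂ 0))) (Real.exp (-L₀)),
    lt_min (Real.exp_pos _) (Real.exp_pos _), ?_⟩
  intro A hA hne hDD
  obtain ⟨N, hN⟩ : ∃ N : ℝ, N = (A.card : ℝ) := ⟨_, rfl⟩
  obtain ⟨L, hL⟩ : ∃ L : ℝ, L = Real.log N := ⟨_, rfl⟩
  rw [← hN] at hDD ⊢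
  rw [← hL] at hDD
  have hN1 : 1 ≤ N := by rw [hN]; exact_mod_cast hne.card_pos
  have hN0 : 0 < N := by linarith
  have hLnn : 0 ≤ L := by rw [hL]; exact Real.log_nonneg hN1
  have hNκ : 0 ≤ N ^ κ := Real.rpow_nonneg hN0.le _
  by_cases hsmall : L < L₀
  · -- small sets
    have h1 : (1 : ℝ) ≤ rho θ (ic A) := one_le_rho hθ1.le (ic_nonempty hne)
    refine le_trans ?_ h1
    calc min (Real.exp (-(Real.log 2 + max C₂ 0))) (Real.exp (-L₀)) * N ^ κ ≤
        Real.exp (-L₀) * Real.exp L := by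
          refine mul_le_mul (min_le_right _ _) ?_ hNκ (Real.exp_pos _).le
          rw [hL, Real.exp_log hN0]
          calc N ^ κ ≤ N ^ (1 : ℝ) := Real.rpow_le_rpow_of_exponent_le hN1 hκ.le
            _ = N := Real.rpow_one N
      _ ≤ 1 := by
          rw [← Real.exp_add]
          exact Real.exp_le_one_iff.2 (by linarith)
  push Not at hsmall
  have hLτ : 2 ≤ L * τ := by
    rw [← div_le_iff₀ hτ0]
    exact hL₀1.trans hsmall
  refine le_trans (mul_le_mul_of_nonneg_right (min_le_left _ _) hNκ) ?_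
  exact core_large hθ1 hκ0 hκ hC₁ hε₂ hδθ hδ0 hδε hx0 (by linarith) hx hlx hτ hτ0 ht1 ht0 hC₂ hA
    hne hN hL rfl (hDD.trans (mul_le_mul_of_nonneg_right hC₀ hLnn)) (hL₀2.trans hsmall) hLτ

end Pool.Agent.Run7.h386.GM
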