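import Pool.Agent.Run7.h386.GM.Split2

/-!
The constants, and the union of the selected classes.
-/

set_option autoImplicit false

namespace Pool.Agent.Run7.h386.GM

open Finset Pool.Agent.Run7.h386.GL Pool.Agent.TH83.SQ
open scoped Pointwise Classical

/-- the constants -/
structure Cst2 (δ R : ℝ) where
  c : Cst δ R
  D : ℕ
  Λ : ℝ
  Λ0 : 0 ≤ Λ
  hΛ : ∀ i k : ℕ, i < c.MX → k < c.MB → psi i + psi k + 2 * Real.log 2 ≤ Λ
  hK₁ : ∀ n m : ℕ, Real.log c.K₀ - Λ ≤ (n + m + 2) * Real.log 2 →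
    2 * Real.log 2 + psi n + psi m + Λ ≤ δ / 2 * ((n + m) * Real.log 2) ∧
      R ≤ (n + m) * Real.log 2
  hD : 2 * ((2 : ℝ) ^ c.MX * 2 ^ c.MB) ^ 2 ≤ δ / 2 * D
  hJ : D * 3 + 1 ≤ c.j₀

theorem exists_cst2 (δ R : ℝ) (hδ : 0 < δ) (hδ1 : δ ≤ 1) (hR : 0 < R) : Nonempty (Cst2 δ R) := by
  obtain ⟨l, hl⟩ : ∃ l : ℝ, l = Real.log 2 := ⟨_, rfl⟩
  have hl0 : 0 < l := by rw [hl]; exact Real.log_pos (by norm_num)
  have hl1 : l ≤ 1 := by rw [hl]; have := Real.log_two_lt_d9; linarith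
  obtain ⟨D₁, hD₁0, hD₁⟩ := psi_le (δ / 8 * l) (by positivity)
  obtain ⟨cB, hcB⟩ := exists_nat_ge (6 / δ)
  rw [div_le_iff₀ hδ] at hcB
  obtain ⟨cX, hcX⟩ := exists_nat_ge (2 * ((cB : ℝ) + 3) / δ)
  rw [div_le_iff₀ hδ] at hcX
  have hcB0 : (0 : ℝ) ≤ cB := Nat.cast_nonneg _
  have hcX0 : (0 : ℝ) ≤ cX := Nat.cast_nonneg _
  obtain ⟨s, hs⟩ : ∃ s : ℝ, s = (cX : ℝ) + cB + 1 := ⟨_, rfl⟩
  have hs0 : 0 < s := by rw [hs]; positivity
  obtain ⟨D₂, hD₂0, hD₂⟩ := psi_le (δ / 16 * l / s) (by positivity)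
  obtain ⟨n₀, hn₀⟩ := exists_nat_ge ((2 * l + 2 * D₁ + 2 * D₂ + R + 6) / (δ / 16 * l))
  rw [div_le_iff₀ (by positivity)] at hn₀
  obtain ⟨N, hN⟩ : ∃ N : ℝ, N = (n₀ : ℝ) := ⟨_, rfl⟩
  rw [← hN] at hn₀
  have hN0 : 0 ≤ N := by rw [hN]; exact Nat.cast_nonneg _
  have hNl : 0 ≤ N * l := mul_nonneg hN0 hl0.le
  -- `hn₀ : 2 l + 2 D₁ + 2 D₂ + R + 6 ≤ N * (δ / 16 * l)`
  have hNδ : N * (δ / 16 * l) ≤ N * l / 16 := by
    have : N * (δ / 16 * l) = δ * (N * l / 16) := by ring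
    rw [this]
    calc δ * (N * l / 16) ≤ 1 * (N * l / 16) := mul_le_mul_of_nonneg_right hδ1 (by positivity)
      _ = _ := one_mul _
  have hNl1 : N * l ≤ N := by
    calc N * l ≤ N * 1 := mul_le_mul_of_nonneg_left hl1 hN0
      _ = N := mul_one N
  obtain ⟨K₀, hK₀⟩ : ∃ K : ℕ, K = 2 ^ n₀ := ⟨_, rfl⟩
  have hlogK : Real.log K₀ = N * l := by
    rw [hK₀, Nat.cast_pow, Real.log_pow, hN, hl]; norm_num
  obtain ⟨Λ, hΛ⟩ : ∃ Λ : ℝ, Λ = δ / 16 * l * N + 2 * D₂ + 2 * l := ⟨_, rfl⟩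
  have hΛ0 : 0 ≤ Λ := by rw [hΛ]; positivity
  have hΛ8 : Λ ≤ δ / 8 * (N * l) := by
    rw [hΛ]
    have : δ / 8 * (N * l) = δ / 16 * l * N + N * (δ / 16 * l) := by ring
    rw [this]
    linarith
  have hn₀6 : 6 ≤ N := by linarith
  -- the main inequality
  have key : ∀ n m : ℕ, N * l - Λ ≤ (n + m + 2) * l →
      2 * l + psi n + psi m + Λ ≤ δ / 2 * ((n + m) * l) ∧ R ≤ (n + m) * l := by
    intro n m h
    obtain ⟨x, hx⟩ : ∃ x : ℝ, x = ((n : ℝ) + m) * l := ⟨_, rfl⟩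
    have h1 : N * l / 2 ≤ x := by
      have h2 : δ / 8 * (N * l) ≤ 1 / 8 * (N * l) :=
        mul_le_mul_of_nonneg_right (by linarith) hNl
      have h3 : ((n : ℝ) + m + 2) * l = x + 2 * l := by rw [hx]; ring
      rw [h3] at h
      have h4 : 6 * l ≤ N * l := mul_le_mul_of_nonneg_right hn₀6 hl0.le
      linarith
    have hn := hD₁ n
    have hm := hD₁ m
    have h2 : psi n + psi m ≤ δ / 8 * x + 2 * D₁ := by
      have : δ / 8 * x = δ / 8 * l * n + δ / 8 * l * m := by rw [hx]; ring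
      linarith
    have h3 : Λ ≤ δ / 4 * x := by
      have h4 : δ / 8 * (N * l) ≤ δ / 8 * (2 * x) :=
        mul_le_mul_of_nonneg_left (by linarith) (by positivity)
      linarith
    have h4 : 2 * l + 2 * D₁ ≤ δ / 8 * x := by
      have h5 : δ / 8 * (N * l / 2) ≤ δ / 8 * x :=
        mul_le_mul_of_nonneg_left h1 (by positivity)
      have h6 : δ / 8 * (N * l / 2) = N * (δ / 16 * l) := by ring
      rw [h6] at h5
      linarith
    rw [← hx]
    refine ⟨?_, ?_⟩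
    · have h5 : δ / 2 * x = δ / 8 * x + δ / 4 * x + δ / 8 * x := by ring
      rw [h5]
      linarith
    · linarith
  have hcB1 : 1 ≤ (cB : ℝ) := by nlinarith
  have hcX1 : 1 ≤ (cX : ℝ) := by nlinarith
  obtain ⟨D, hD⟩ := exists_nat_ge (2 * ((2 : ℝ) ^ (cX * n₀) * 2 ^ (cB * n₀)) ^ 2 / (δ / 2))
  rw [div_le_iff₀ (by positivity)] at hD
  have hMBl : ∀ i : ℕ, cB * n₀ ≤ i → 3 * (N * l) ≤ δ / 2 * (i * l) ∧ N * l ≤ i * l := by
    intro i hi
    have h1 : (cB : ℝ) * N ≤ i := by rw [hN]; exact_mod_cast hi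
    have h2 : (cB : ℝ) * N * l ≤ i * l := mul_le_mul_of_nonneg_right h1 hl0.le
    constructor
    · have h3 : δ / 2 * ((cB : ℝ) * N * l) ≤ δ / 2 * (i * l) :=
        mul_le_mul_of_nonneg_left h2 (by positivity)
      have h4 : δ / 2 * ((cB : ℝ) * N * l) = (cB * δ) / 2 * (N * l) := by ring
      rw [h4] at h3
      have h5 : 3 * (N * l) ≤ (cB * δ) / 2 * (N * l) :=
        mul_le_mul_of_nonneg_right (by linarith) hNl
      linarith
    · have h3 : 1 * (N * l) ≤ cB * (N * l) := mul_le_mul_of_nonneg_right hcB1 hNl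
      have h4 : (cB : ℝ) * N * l = cB * (N * l) := by ring
      linarith
  have hMXl : ∀ i : ℕ, cX * n₀ ≤ i → ((cB : ℝ) + 3) * (N * l) ≤ δ / 2 * (i * l) ∧
      N * l ≤ i * l := by
    intro i hi
    have h1 : (cX : ℝ) * N ≤ i := by rw [hN]; exact_mod_cast hi
    have h2 : (cX : ℝ) * N * l ≤ i * l := mul_le_mul_of_nonneg_right h1 hl0.le
    constructor
    · have h3 : δ / 2 * ((cX : ℝ) * N * l) ≤ δ / 2 * (i * l) :=
        mul_le_mul_of_nonneg_left h2 (by positivity)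
      have h4 : δ / 2 * ((cX : ℝ) * N * l) = (cX * δ) / 2 * (N * l) := by ring
      rw [h4] at h3
      have h5 : ((cB : ℝ) + 3) * (N * l) ≤ (cX * δ) / 2 * (N * l) :=
        mul_le_mul_of_nonneg_right (by linarith) hNl
      linarith
    · have h3 : 1 * (N * l) ≤ cX * (N * l) := mul_le_mul_of_nonneg_right hcX1 hNl
      have h4 : (cX : ℝ) * N * l = cX * (N * l) := by ring
      linarith
  refine ⟨⟨⟨K₀, cB * n₀, cX * n₀, D * 3 + 1, ?_, ?_, ?_, ?_, ?_, by omega⟩, D, Λ, hΛ0, ?_, ?_, ?_,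
    le_rfl⟩⟩
  · rw [hK₀]
    calc 2 = 2 ^ 1 := by norm_num
      _ ≤ 2 ^ n₀ := Nat.pow_le_pow_right (by norm_num) (by
        have : (1 : ℝ) ≤ n₀ := by rw [← hN]; linarith
        exact_mod_cast this)
  · intro n m h
    rw [← hl]
    have h1 : N * l ≤ (n + m + 2) * l := by
      have h2 : (K₀ : ℝ) ≤ 2 ^ (n + m + 2) := by exact_mod_cast h
      have h3 : (0 : ℝ) < K₀ := by rw [hK₀]; positivity
      have h4 := Real.log_le_log h3 h2
      rw [hlogK, Real.log_pow, ← hl] at h4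
      push_cast at h4
      exact h4
    obtain ⟨h2, h3⟩ := key n m (by linarith)
    exact ⟨by linarith, h3⟩
  · intro i hi
    rw [← hl]
    obtain ⟨h1, h2⟩ := hMBl i hi
    have h3 := hD₁ i
    rw [hlogK]
    have h4 : δ / 8 * l * i ≤ δ / 2 * (i * l) := by
      have : (0 : ℝ) ≤ i * l := by positivity
      have h5 : δ / 8 * l * i = δ / 8 * (i * l) := by ring
      rw [h5]
      exact mul_le_mul_of_nonneg_right (by linarith) this
    have h5 : δ * (i * l) = δ / 2 * (i * l) + δ / 2 * (i * l) := by ring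
    refine ⟨?_, by linarith⟩
    rw [h5]
    linarith
  · intro i hi
    rw [← hl]
    obtain ⟨h1, h2⟩ := hMXl i hi
    have h3 := hD₁ i
    have h4 : δ / 8 * l * i ≤ δ / 2 * (i * l) := by
      have : (0 : ℝ) ≤ i * l := by positivity
      have h5 : δ / 8 * l * i = δ / 8 * (i * l) := by ring
      rw [h5]
      exact mul_le_mul_of_nonneg_right (by linarith) this
    have h5 : δ * (i * l) = δ / 2 * (i * l) + δ / 2 * (i * l) := by ring
    refine ⟨?_, by linarith⟩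
    rw [h5]
    push_cast
    rw [← hN]
    have h6 : ((cB : ℝ) * N + 1) * l = cB * (N * l) + l := by ring
    rw [h6]
    have h7 : ((cB : ℝ) + 3) * (N * l) = cB * (N * l) + 3 * (N * l) := by ring
    rw [h7] at h1
    linarith
  · push_cast
    calc 2 * ((2 : ℝ) ^ (cX * n₀) * 2 ^ (cB * n₀)) ^ 2 ≤ D * (δ / 2) := hD
      _ = δ / 2 * D := by ring
      _ ≤ δ / 2 * (D * 3 + 1) := mul_le_mul_of_nonneg_left (by
        have : (0 : ℝ) ≤ D := Nat.cast_nonneg _
        linarith) (by positivity)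
  · intro i k hi hk
    simp only at hi hk
    rw [← hl]
    have h1 := hD₂ i
    have h2 := hD₂ k
    have hi' : (i : ℝ) ≤ cX * N := by rw [hN]; exact_mod_cast hi.le
    have hk' : (k : ℝ) ≤ cB * N := by rw [hN]; exact_mod_cast hk.le
    have hq : 0 ≤ δ / 16 * l / s := by positivity
    have h3 := mul_le_mul_of_nonneg_left (add_le_add hi' hk') hq
    have h4 : δ / 16 * l / s * (cX * N + cB * N) ≤ δ / 16 * l * N := by
      have h5 : (cX * N + cB * N) ≤ s * N := by rw [hs]; linarith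
      calc δ / 16 * l / s * (cX * N + cB * N) ≤ δ / 16 * l / s * (s * N) :=
            mul_le_mul_of_nonneg_left h5 hq
        _ = δ / 16 * l * N := by field_simp
    rw [hΛ]
    linarith
  · intro n m h
    simp only at h
    rw [hlogK, ← hl] at h
    rw [← hl]
    exact key n m h
  · simp only
    calc 2 * ((2 : ℝ) ^ (cX * n₀) * 2 ^ (cB * n₀)) ^ 2 ≤ D * (δ / 2) := hD
      _ = δ / 2 * D := by ring

/-- the union of the selected classes is large -/
theorem sel_union {Q : ℤ} {X V : Finset ℤ} {i : ℕ} (hX : X.Nonempty) (hVn : V.Nonempty)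
    (hVi : ∀ t ∈ V, ∀ t' ∈ V, Q ∣ t - t' → t = t')
    (h1 : ∀ t ∈ V, X.card ≤ 2 ^ (i + 1) * (cls Q X t).card)
    (h2 : 2 ^ i ≤ V.card * ((i + 1) * (i + 2))) :
    Real.log X.card ≤ Real.log (V.biUnion (cls Q X)).card + Real.log 2 + psi i := by
  have hc : (V.biUnion (cls Q X)).card = ∑ t ∈ V, (cls Q X t).card := by
    rw [Finset.card_biUnion]
    intro t ht t' ht' hne
    rw [Function.onFun, Finset.disjoint_left]
    intro x hx hx'
    apply hne
    apply hVi t ht t' ht'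
    have h3 := (Finset.mem_filter.1 hx).2
    have h4 := (Finset.mem_filter.1 hx').2
    have e : t - t' = (x - t') - (x - t) := by ring
    rw [e]
    exact dvd_sub h4 h3
  have h3 : V.card * X.card ≤ 2 ^ (i + 1) * (V.biUnion (cls Q X)).card := by
    rw [hc, Finset.mul_sum, ← smul_eq_mul, ← Finset.sum_const]
    exact Finset.sum_le_sum h1
  have h4 : 2 ^ i * X.card ≤ 2 ^ i * (2 * ((i + 1) * (i + 2)) * (V.biUnion (cls Q X)).card) := by
    calc 2 ^ i * X.card ≤ V.card * ((i + 1) * (i + 2)) * X.card := Nat.mul_le_mul_right _ h2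
      _ = (i + 1) * (i + 2) * (V.card * X.card) := by ring
      _ ≤ (i + 1) * (i + 2) * (2 ^ (i + 1) * (V.biUnion (cls Q X)).card) :=
          Nat.mul_le_mul_left _ h3
      _ = _ := by ring
  have h5 := Nat.le_of_mul_le_mul_left h4 (by positivity)
  have hX0 : 0 < X.card := hX.card_pos
  have hne : 0 < (V.biUnion (cls Q X)).card := by
    rcases Nat.eq_zero_or_pos (V.biUnion (cls Q X)).card with h | h
    · rw [h] at h5; omega
    · exact h
  have h6 : (X.card : ℝ) ≤ (V.biUnion (cls Q X)).card * 2 * (((i : ℝ) + 1) * (i + 2)) := by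
    have : (X.card : ℝ) ≤ 2 * (((i : ℝ) + 1) * (i + 2)) * (V.biUnion (cls Q X)).card := by
      exact_mod_cast h5
    linarith
  have c1 : (0 : ℝ) < (V.biUnion (cls Q X)).card := by exact_mod_cast hne
  have c2 : (0 : ℝ) < X.card := by exact_mod_cast hX0
  have h7 := Real.log_le_log c2 h6
  rw [Real.log_mul (by positivity) (by positivity), Real.log_mul c1.ne' (by norm_num)] at h7
  exact h7

theorem tau_mono {P : Finset ℕ} {X X' B B' : Finset ℤ} (hX : X ⊆ X') (hB : B ⊆ B')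
    (hXn : X.Nonempty) (hBn : B.Nonempty) : tau P X B ≤ tau P X' B' := by
  unfold tau
  refine div_le_div_of_nonneg_right ?_ (by positivity)
  refine Finset.sum_le_sum fun s _ => ?_
  refine Real.log_le_log ?_ ?_
  · exact_mod_cast ((hXn.image _).add hBn).card_pos
  · exact_mod_cast Finset.card_le_card (Finset.add_subset_add (Finset.image_subset_image hX) hB)

end Pool.Agent.Run7.h386.GM
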