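import Pool.Agent.Run7.h386.GL.Generic
import Pool.Agent.TH83.SQ.DilMain

/-!
In a large set of pairwise coprime integers there is a member `m` with an exact prime power factor
`q ^ a` modulo which the other members take many values: otherwise the product of the differences of
the members would be divisible by too high powers of all the members. No bound for the prime
exponents is needed.
-/

set_option autoImplicit false

namespace Pool.Agent.Run7.h386.GM

open Finset Pool.Agent.Run7.h386.GL Pool.Agent.TH83.SQ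
open scoped Classical

theorem exists_generic2 (D : ℕ) (M : Finset ℕ) (hM2 : ∀ m ∈ M, 2 ≤ m)
    (hcop : ∀ m ∈ M, ∀ m' ∈ M, m ≠ m' → Nat.Coprime m m')
    (hcard : D * 3 + 1 < M.card) :
    ∃ m ∈ M, ∃ q a : ℕ, q.Prime ∧ 1 ≤ a ∧ q ^ a ∣ m ∧ ∃ P₁ ⊆ M.erase m, P₁.card = D ∧
      ∀ x ∈ P₁, ∀ y ∈ P₁, (x : ZMod (q ^ a)) = y → x = y := by
  by_contra hcon
  push Not at hcon
  -- few residues
  have hfew : ∀ m ∈ M, ∀ q a : ℕ, q.Prime → 1 ≤ a → q ^ a ∣ m →
      ((M.erase m).image fun x : ℕ => (x : ZMod (q ^ a))).card ≤ D := by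
    intro m hm q a hq ha hqm
    by_contra hlt
    push Not at hlt
    obtain ⟨J, hJ, hJc⟩ := Finset.exists_subset_card_eq hlt.le
    have hg : ∀ c ∈ J, ∃ x ∈ M.erase m, (x : ZMod (q ^ a)) = c := fun c hc =>
      Finset.mem_image.1 (hJ hc)
    choose! g hg1 hg2 using hg
    have hinj : Set.InjOn g (J : Set (ZMod (q ^ a))) := by
      intro a ha b hb hab
      rw [← hg2 a ha, ← hg2 b hb, hab]
    obtain ⟨x, hx, y, hy, hxy, hne⟩ := hcon m hm q a hq ha hqm (J.image g) (by
      intro x hx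
      obtain ⟨c, hc, rfl⟩ := Finset.mem_image.1 hx
      exact hg1 c hc) (by rw [Finset.card_image_of_injOn hinj, hJc])
    obtain ⟨c, hc, rfl⟩ := Finset.mem_image.1 hx
    obtain ⟨c', hc', rfl⟩ := Finset.mem_image.1 hy
    rw [hg2 c hc, hg2 c' hc'] at hxy
    exact hne (by rw [hxy])
  set n' := M.card - 1 with hn'
  have hn'D : D * 3 < n' := by omega
  set c := 2 * n' + 1 with hc
  -- every prime power factor occurs to the power `c`
  have hpow : ∀ m ∈ M, ∀ q a : ℕ, q.Prime → 1 ≤ a → q ^ a ∣ m → (q ^ a) ^ c ∣ dl M := by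
    intro m hm q a hq ha hqm
    have h1 := pairs (q := q ^ a) (M.erase m) (hfew m hm q a hq ha hqm)
    rw [Finset.card_erase_of_mem hm, ← hn'] at h1
    set S := (M.erase m).offDiag.filter fun x => (x.1 : ZMod (q ^ a)) = x.2 with hS
    have h2 : c ≤ S.card := by
      by_contra hlt
      push Not at hlt
      have h3 : S.card + n' ≤ n' * 3 := by
        rw [hc] at hlt
        omega
      have h4 : D * (S.card + n') ≤ D * (n' * 3) := Nat.mul_le_mul_left _ h3
      have h5 : n' ^ 2 ≤ n' * (D * 3) := by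
        calc n' ^ 2 ≤ D * (S.card + n') := h1
          _ ≤ D * (n' * 3) := h4
          _ = n' * (D * 3) := by ring
      have h6 : n' * (D * 3) < n' * n' := Nat.mul_lt_mul_of_pos_left hn'D (by omega)
      rw [sq] at h5
      omega
    refine (pow_dvd_pow (q ^ a) h2).trans ?_
    have h3 : ∏ _x ∈ S, q ^ a ∣ ∏ x ∈ S, ((x.1 : ℤ) - x.2).natAbs := by
      refine Finset.prod_dvd_prod_of_dvd _ _ fun x hx => ?_
      have h4 := (Finset.mem_filter.1 hx).2
      have h5 : ((q ^ a : ℕ) : ℤ) ∣ (x.1 : ℤ) - x.2 := by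
        rw [← ZMod.intCast_zmod_eq_zero_iff_dvd]
        push_cast
        rw [h4, sub_self]
      have := Int.natAbs_dvd_natAbs.2 h5
      simpa using this
    rw [Finset.prod_const] at h3
    refine h3.trans ?_
    unfold dl
    refine Finset.prod_dvd_prod_of_subset _ _ _ ?_
    intro x hx
    have h4 := (Finset.mem_filter.1 hx).1
    rw [Finset.mem_offDiag] at h4 ⊢
    exact ⟨Finset.mem_of_mem_erase h4.1, Finset.mem_of_mem_erase h4.2.1, h4.2.2⟩
  have hm0 : ∀ m ∈ M, m ≠ 0 := fun m hm => by have := hM2 m hm; omega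
  have hdl0 : dl M ≠ 0 := (dl_pos M).ne'
  have hmc : ∀ m ∈ M, m ^ c ∣ dl M := by
    intro m hm
    rw [← Nat.factorization_prime_le_iff_dvd (pow_ne_zero _ (hm0 m hm)) hdl0]
    intro q hq
    rcases Nat.eq_zero_or_pos (m.factorization q) with h0 | h0
    · rw [Nat.factorization_pow]
      simp [h0]
    · have h1 := hpow m hm q (m.factorization q) hq h0 (Nat.ordProj_dvd m q)
      rw [← pow_mul, hq.pow_dvd_iff_le_factorization hdl0] at h1
      rw [Nat.factorization_pow]
      simp only [Finsupp.smul_apply, smul_eq_mul]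
      rw [mul_comm]
      exact h1
  have hdvd : (∏ m ∈ M, m) ^ c ∣ dl M := by
    rw [← Finset.prod_pow]
    refine Finset.prod_dvd_of_isRelPrime ?_ hmc
    intro a ha b hb hab
    simp only [Function.onFun]
    rw [← Nat.coprime_iff_isRelPrime]
    exact Nat.Coprime.pow _ _ (hcop a ha b hb hab)
  have hle : (∏ m ∈ M, m) ^ c ≤ dl M := Nat.le_of_dvd (dl_pos M) hdvd
  have h2 : dl M ≤ (∏ m ∈ M, m) ^ (2 * n') := dl_le fun m hm => (by have := hM2 m hm; omega)
  have hMne : M.Nonempty := Finset.card_pos.1 (by omega)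
  have hrd2 : 2 ≤ ∏ m ∈ M, m := by
    obtain ⟨m, hm⟩ := hMne
    have h3 : m ∣ ∏ m ∈ M, m := Finset.dvd_prod_of_mem _ hm
    have h4 : 0 < ∏ m ∈ M, m := Finset.prod_pos fun x hx => Nat.pos_of_ne_zero (hm0 x hx)
    exact (hM2 m hm).trans (Nat.le_of_dvd h4 h3)
  have h3 : (∏ m ∈ M, m) ^ c ≤ (∏ m ∈ M, m) ^ (2 * n') := hle.trans h2
  have h4 := (Nat.pow_le_pow_iff_right (by omega : 1 < ∏ m ∈ M, m)).1 h3
  omega

/-- the products of subsets are units -/
theorem pr_unit {N : ℕ} {P : Finset ℕ} (hP : ∀ x ∈ P, Nat.Coprime x N) {s : Finset ℕ}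
    (hs : s ⊆ P) : IsUnit ((pr s : ℤ) : ZMod N) := by
  unfold pr
  push_cast
  refine Finset.prod_induction _ IsUnit (fun _ _ => IsUnit.mul) isUnit_one fun x hx => ?_
  exact (ZMod.isUnit_iff_coprime x N).2 (hP x (hs hx))

/-- the products of the subsets are spread modulo `N`, if the set contains many elements which
are different modulo `N` -/
theorem gen2 {N : ℕ} (P P₁ : Finset ℕ) (hP1 : P₁ ⊆ P)
    (hP : ∀ x ∈ P, Nat.Coprime x N) (hinj : ∀ x ∈ P₁, ∀ y ∈ P₁, (x : ZMod N) = y → x = y)
    (r : ZMod N) :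
    P₁.card * (P.powerset.filter fun s => ((pr s : ℤ) : ZMod N) = r).card ≤ 2 * 2 ^ P.card := by
  set S := P.powerset.filter fun s => ((pr s : ℤ) : ZMod N) = r with hS
  have hSm : ∀ s ∈ S, s ⊆ P ∧ ((pr s : ℤ) : ZMod N) = r := by
    intro s hs
    rw [hS, Finset.mem_filter, Finset.mem_powerset] at hs
    exact hs
  have h1 : ∑ s ∈ S, (P₁ ∩ s).card ≤ 2 ^ P.card := by
    rw [← Finset.card_sigma, ← Finset.card_powerset]
    refine Finset.card_le_card_of_injOn (fun x => x.1.erase x.2) ?_ ?_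
    · intro x hx
      rw [Finset.mem_coe, Finset.mem_sigma] at hx
      rw [Finset.mem_coe, Finset.mem_powerset]
      exact (Finset.erase_subset _ _).trans (hSm _ hx.1).1
    · rintro ⟨s, x⟩ hx ⟨s', x'⟩ hx' h
      rw [Finset.mem_coe, Finset.mem_sigma] at hx hx'
      simp only at h hx hx'
      obtain ⟨hs, hr⟩ := hSm _ hx.1
      obtain ⟨hs', hr'⟩ := hSm _ hx'.1
      obtain ⟨hx1, hx2⟩ := Finset.mem_inter.1 hx.2
      obtain ⟨hx1', hx2'⟩ := Finset.mem_inter.1 hx'.2
      have e1 : pr s = (x : ℤ) * pr (s.erase x) := by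
        rw [← Pool.Agent.TH828.SQ1822.pr_insert (Finset.notMem_erase x s), Finset.insert_erase hx2]
      have e2 : pr s' = (x' : ℤ) * pr (s.erase x) := by
        rw [h, ← Pool.Agent.TH828.SQ1822.pr_insert (Finset.notMem_erase x' s'),
          Finset.insert_erase hx2']
      have hu := pr_unit hP ((Finset.erase_subset x s).trans hs)
      have e3 : (x : ZMod N) * ((pr (s.erase x) : ℤ) : ZMod N) =
          (x' : ZMod N) * ((pr (s.erase x) : ℤ) : ZMod N) := by
        rw [← hr', e1, e2] at hr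
        push_cast at hr
        exact hr
      have e4 : x = x' := hinj _ hx1 _ hx1' (hu.mul_right_cancel e3)
      subst e4
      have e5 : s = s' := by
        rw [← Finset.insert_erase hx2, h, Finset.insert_erase hx2']
      subst e5
      rfl
  have h2 : ∑ s ∈ S, (P₁ \ s).card ≤ 2 ^ P.card := by
    rw [← Finset.card_sigma, ← Finset.card_powerset]
    refine Finset.card_le_card_of_injOn (fun x => insert x.2 x.1) ?_ ?_
    · intro x hx
      rw [Finset.mem_coe, Finset.mem_sigma] at hx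
      rw [Finset.mem_coe, Finset.mem_powerset]
      exact Finset.insert_subset (hP1 (Finset.mem_sdiff.1 hx.2).1) (hSm _ hx.1).1
    · rintro ⟨s, x⟩ hx ⟨s', x'⟩ hx' h
      rw [Finset.mem_coe, Finset.mem_sigma] at hx hx'
      simp only at h hx hx'
      obtain ⟨hs, hr⟩ := hSm _ hx.1
      obtain ⟨hs', hr'⟩ := hSm _ hx'.1
      obtain ⟨hq1, hq2⟩ := Finset.mem_sdiff.1 hx.2
      obtain ⟨hq1', hq2'⟩ := Finset.mem_sdiff.1 hx'.2
      have hu : IsUnit r := by
        rw [← hr]; exact pr_unit hP hs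
      have e3 : (x : ZMod N) * r = (x' : ZMod N) * r := by
        have := congrArg (fun u => ((pr u : ℤ) : ZMod N)) h
        simp only [Pool.Agent.TH828.SQ1822.pr_insert hq2,
          Pool.Agent.TH828.SQ1822.pr_insert hq2'] at this
        push_cast at this
        rw [hr, hr'] at this
        exact this
      have e4 : x = x' := hinj _ hq1 _ hq1' (hu.mul_right_cancel e3)
      subst e4
      have e5 : s = s' := by
        rw [← Finset.erase_insert hq2, h, Finset.erase_insert hq2']
      subst e5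
      rfl
  have h3 : ∑ s ∈ S, (P₁ ∩ s).card + ∑ s ∈ S, (P₁ \ s).card = P₁.card * S.card := by
    rw [← Finset.sum_add_distrib, mul_comm, ← smul_eq_mul, ← Finset.sum_const]
    refine Finset.sum_congr rfl fun s hs => ?_
    exact Finset.card_inter_add_card_sdiff P₁ s
  omega

end Pool.Agent.Run7.h386.GM
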