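import Pool.Agent.Run7.h386.GL.Split
import Pool.Agent.Run7.h386.GM.Generic2

/-!
The splitting inequalities for two moduli `q ^ (j + 1)` and `q ^ (j + a)`.
-/

set_option autoImplicit false

namespace Pool.Agent.Run7.h386.GM

open Finset Pool.Agent.Run7.h386.GL Pool.Agent.TH83.SQ
open scoped Pointwise Classical

theorem caseI2 {m : ℕ} {Q₁ Q₂ : ℤ} (hQ : Q₂ ∣ m * Q₁) (P : Finset ℕ) (X B : Finset ℤ) (x₀ : ℤ)
    (hx₀ : x₀ ∈ X) (U : Finset ℤ) (hU : U ⊆ B) (hUn : U.Nonempty)
    (hUi : ∀ t ∈ U, ∀ t' ∈ U, Q₂ ∣ t - t' → t = t') :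
    Real.log U.card + (∑ t ∈ U, tau P (dil m (cls Q₁ X x₀)) (cls Q₂ B t)) / U.card ≤
      tau P (dil m X) B := by
  refine Pool.Agent.TH959.SQ.tau_avg P U (fun _ => dil m (cls Q₁ X x₀))
    (fun t => cls Q₂ B t) (dil m X) B ?_
  intro s _
  refine Pool.Agent.TH959.SQ.log_split U hUn _ _ ?_ ?_ ?_
  · intro t _
    exact Finset.add_subset_add (Pool.Agent.TH959.SQ.dil_mono
      (Pool.Agent.TH959.SQ.dil_mono (Pool.Agent.TH959.SQ.cls_subset _ _ _)))
      (Pool.Agent.TH959.SQ.cls_subset _ _ _)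
  · intro t ht
    exact (Pool.Agent.TH959.SQ.dil_nonempty (Pool.Agent.TH959.SQ.dil_nonempty
      ⟨x₀, Pool.Agent.TH959.SQ.self_mem_cls hx₀⟩)).add
      ⟨t, Pool.Agent.TH959.SQ.self_mem_cls (hU ht)⟩
  · intro t ht t' ht' htt
    rw [Finset.disjoint_left]
    intro z hz hz'
    apply htt
    have key : ∀ t, z ∈ dil (pr s) (dil m (cls Q₁ X x₀)) + cls Q₂ B t →
        Q₂ ∣ z - (pr s * (m * x₀) + t) := by
      intro t hz
      obtain ⟨a, ha, b, hb, rfl⟩ := Finset.mem_add.1 hz
      obtain ⟨a', ha', rfl⟩ := Pool.Agent.TH959.SQ.mem_dil.1 ha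
      obtain ⟨x, hx, rfl⟩ := Pool.Agent.TH959.SQ.mem_dil.1 ha'
      have h1 := (Pool.Agent.TH959.SQ.mem_cls.1 hx).2
      have h2 := (Pool.Agent.TH959.SQ.mem_cls.1 hb).2
      have h3 : Q₂ ∣ pr s * (m * (x - x₀)) :=
        Dvd.dvd.mul_left (hQ.trans (mul_dvd_mul_left _ h1)) _
      have h4 : pr s * (m * x) + b - (pr s * (m * x₀) + t) =
          pr s * (m * (x - x₀)) + (b - t) := by ring
      rw [h4]
      exact dvd_add h3 h2
    have h5 := key t hz
    have h6 := key t' hz'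
    have h7 := dvd_sub h6 h5
    refine hUi t ht t' ht' ?_
    have h8 : z - (pr s * (m * x₀) + t') - (z - (pr s * (m * x₀) + t)) = t - t' := by ring
    rwa [h8] at h7

/-- a divisibility -/
lemma pow_dvd_left {q : ℕ} (hq : q.Prime) {j a : ℕ} {u w : ℤ}
    (h : (q : ℤ) ^ (j + a) ∣ u * w) (hw : ¬ (q : ℤ) ^ (j + 1) ∣ w) : (q : ℤ) ^ a ∣ u := by
  have hq' : Prime (q : ℤ) := Nat.prime_iff_prime_int.1 hq
  induction j generalizing w with
  | zero =>
    rw [zero_add] at h
    rw [zero_add, pow_one] at hw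
    rw [mul_comm] at h
    exact hq'.pow_dvd_of_dvd_mul_left a hw h
  | succ j ih =>
    by_cases h1 : (q : ℤ) ∣ w
    · obtain ⟨w', rfl⟩ := h1
      refine ih (w := w') ?_ ?_
      · have h2 : (q : ℤ) * q ^ (j + a) ∣ q * (u * w') := by
          have e1 : (q : ℤ) * q ^ (j + a) = q ^ (j + 1 + a) := by ring
          have e2 : (q : ℤ) * (u * w') = u * (q * w') := by ring
          rw [e1, e2]; exact h
        exact Int.dvd_of_mul_dvd_mul_left hq'.ne_zero h2
      · intro h2
        apply hw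
        rw [pow_succ', mul_comm (q : ℤ) w', mul_comm (q : ℤ)]
        exact mul_dvd_mul_right h2 _
    · rw [mul_comm] at h
      exact (pow_dvd_pow (q : ℤ) (by omega)).trans (hq'.pow_dvd_of_dvd_mul_left _ h1 h)

theorem caseIIb2 {q a j : ℕ} (hq : q.Prime) (ha : 1 ≤ a) (P : Finset ℕ) (D : ℕ)
    (hgen : ∀ r : ZMod (q ^ a),
      D * (P.powerset.filter fun s => ((pr s : ℤ) : ZMod (q ^ a)) = r).card ≤ 2 * 2 ^ P.card)
    (X B : Finset ℤ) (V : Finset ℤ) (hVn : V.Nonempty)
    (hV : ∀ x ∈ X, ∃ t ∈ V, (q : ℤ) ^ (j + a) ∣ x - t) (Y : Finset ℤ) (hYn : Y.Nonempty)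
    (hY : ∀ x ∈ B, ∃ t ∈ Y, (q : ℤ) ^ (j + a) ∣ x - t)
    (T : Finset ℤ) (hT : T ⊆ X) (hTn : T.Nonempty)
    (hTi : ∀ t ∈ T, ∀ t' ∈ T, ((q : ℤ) ^ (j + 1)) ∣ t - t' → t = t')
    (U : Finset ℤ) (hU : U ⊆ B) (hUn : U.Nonempty)
    (hUi : ∀ t ∈ U, ∀ t' ∈ U, ((q : ℤ) ^ (j + 1)) ∣ t - t' → t = t')
    (β : ℝ) (hβ : 2 * ((V.card : ℝ) * Y.card) ^ 2 ≤ β * D) :
    (1 - β) * (Real.log T.card + Real.log U.card) +
      (∑ t ∈ T, ∑ v ∈ U, tau P (cls ((q : ℤ) ^ (j + 1)) X t) (cls ((q : ℤ) ^ (j + 1)) B v)) /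
        (T.card * U.card) ≤ tau P X B := by
  have hTc : (0 : ℝ) < T.card := by exact_mod_cast hTn.card_pos
  have hUc : (0 : ℝ) < U.card := by exact_mod_cast hUn.card_pos
  have hVc : (0 : ℝ) < V.card := by exact_mod_cast hVn.card_pos
  have hYc : (0 : ℝ) < Y.card := by exact_mod_cast hYn.card_pos
  set Q : ℤ := (q : ℤ) ^ (j + 1) with hQ
  set L : ℤ := (q : ℤ) ^ (j + a) with hL
  have hQL : Q ∣ L := pow_dvd_pow _ (by omega)
  set W : Finset (ℤ × ℤ) := T ×ˢ U with hW
  set Z : Finset (ℤ × ℤ) := V ×ˢ Y with hZ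
  have hWn : W.Nonempty := hTn.product hUn
  have hWc : (W.card : ℝ) = T.card * U.card := by rw [hW, Finset.card_product]; push_cast; ring
  have hZc : (Z.card : ℝ) = V.card * Y.card := by rw [hZ, Finset.card_product]; push_cast; ring
  have hWc0 : (0 : ℝ) < W.card := by rw [hWc]; positivity
  have hWc1 : (1 : ℝ) ≤ W.card := by exact_mod_cast hWn.card_pos
  -- the pieces
  set Dd : ℤ → ℤ × ℤ → Finset ℤ := fun d w => dil d (cls Q X w.1) + cls Q B w.2 with hD
  have hDne : ∀ d, ∀ w ∈ W, (Dd d w).Nonempty := by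
    intro d w hw
    rw [hW, Finset.mem_product] at hw
    refine Finset.Nonempty.add ?_ ?_
    · refine Finset.Nonempty.image ⟨w.1, ?_⟩ _
      rw [cls, Finset.mem_filter]
      exact ⟨hT hw.1, by simp⟩
    · refine ⟨w.2, ?_⟩
      rw [cls, Finset.mem_filter]
      exact ⟨hU hw.2, by simp⟩
  have hDsub : ∀ d, ∀ w ∈ W, Dd d w ⊆ dil d X + B := by
    intro d w _
    refine Finset.add_subset_add ?_ (Finset.filter_subset _ _)
    exact Finset.image_subset_image (Finset.filter_subset _ _)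
  -- good sets
  set good : Finset ℕ → Prop := fun s => ∀ w ∈ Z, ∀ w' ∈ Z,
    L ∣ pr s * (w.1 - w'.1) + (w.2 - w'.2) → Q ∣ w.1 - w'.1 with hgood
  have hbad_case : ∀ s, (∑ w ∈ W, Real.log ((Dd (pr s) w).card : ℝ)) / W.card ≤
      Real.log ((dil (pr s) X + B).card : ℝ) := by
    intro s
    rw [div_le_iff₀ hWc0, mul_comm, ← nsmul_eq_mul, ← Finset.sum_const]
    refine Finset.sum_le_sum fun w hw => ?_
    refine Real.log_le_log (by exact_mod_cast (hDne _ w hw).card_pos) ?_
    exact_mod_cast Finset.card_le_card (hDsub _ w hw)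
  have hgood_case : ∀ s, good s → Real.log W.card +
      (∑ w ∈ W, Real.log ((Dd (pr s) w).card : ℝ)) / W.card ≤
      Real.log ((dil (pr s) X + B).card : ℝ) := by
    intro s hs
    refine (Pool.Agent.TH828.SQ1822.log_mean W hWn (fun w => ((Dd (pr s) w).card : ℝ))
      fun w hw => by exact_mod_cast (hDne _ w hw).card_pos).trans ?_
    refine Real.log_le_log (Finset.sum_pos (fun w hw => by
      exact_mod_cast (hDne _ w hw).card_pos) hWn) ?_
    have hdisj : ∀ w ∈ W, ∀ w' ∈ W, w ≠ w' → Disjoint (Dd (pr s) w) (Dd (pr s) w') := by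
      intro w hw w' hw' hne
      rw [Finset.disjoint_left]
      intro x hx hx'
      apply hne
      rw [hW, Finset.mem_product] at hw hw'
      obtain ⟨y, hy, b, hb, rfl⟩ := Finset.mem_add.1 hx
      obtain ⟨y', hy', b', hb', he⟩ := Finset.mem_add.1 hx'
      obtain ⟨c, hc, rfl⟩ := Finset.mem_image.1 hy
      obtain ⟨c', hc', rfl⟩ := Finset.mem_image.1 hy'
      obtain ⟨hc1, hc2⟩ := Finset.mem_filter.1 hc
      obtain ⟨hc1', hc2'⟩ := Finset.mem_filter.1 hc'
      obtain ⟨hb1, hb2⟩ := Finset.mem_filter.1 hb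
      obtain ⟨hb1', hb2'⟩ := Finset.mem_filter.1 hb'
      obtain ⟨v, hv, hv'⟩ := hV c hc1
      obtain ⟨v₁, hv₁, hv₁'⟩ := hV c' hc1'
      obtain ⟨y, hy, hy'⟩ := hY b hb1
      obtain ⟨y₁, hy₁, hy₁'⟩ := hY b' hb1'
      have h1 : L ∣ pr s * (v - v₁) + (y - y₁) := by
        have e : pr s * (v - v₁) + (y - y₁) =
            (pr s * c + b - (pr s * c' + b')) - pr s * (c - v) + pr s * (c' - v₁) - (b - y) +
              (b' - y₁) := by ring
        rw [e]
        have e2 : pr s * c + b - (pr s * c' + b') = 0 := by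
          have : pr s * c' + b' = pr s * c + b := he
          rw [this, sub_self]
        rw [e2]
        exact dvd_add (dvd_sub (dvd_add (dvd_sub (dvd_zero _) (hv'.mul_left _))
          (hv₁'.mul_left _)) hy') hy₁'
      have h2 : Q ∣ v - v₁ := hs (v, y) (Finset.mk_mem_product hv hy) (v₁, y₁)
        (Finset.mk_mem_product hv₁ hy₁) h1
      have h3 : Q ∣ c - c' := by
        have e : c - c' = (c - v) - (c' - v₁) + (v - v₁) := by ring
        rw [e]
        exact dvd_add (dvd_sub (hQL.trans hv') (hQL.trans hv₁')) h2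
      have h4 : Q ∣ b - b' := by
        have e : b - b' = - (pr s * (c - c')) := by
          have : pr s * c' + b' = pr s * c + b := he
          linear_combination -this
        rw [e]
        exact (h3.mul_left _).neg_right
      have h5 : w.1 = w'.1 := by
        refine hTi _ hw.1 _ hw'.1 ?_
        have e : w.1 - w'.1 = (c - c') - (c - w.1) + (c' - w'.1) := by ring
        rw [e]
        exact dvd_add (dvd_sub h3 hc2) hc2'
      have h6 : w.2 = w'.2 := by
        refine hUi _ hw.2 _ hw'.2 ?_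
        have e : w.2 - w'.2 = (b - b') - (b - w.2) + (b' - w'.2) := by ring
        rw [e]
        exact dvd_add (dvd_sub h4 hb2) hb2'
      exact Prod.ext h5 h6
    have h1 : ∑ w ∈ W, (Dd (pr s) w).card = (W.biUnion (Dd (pr s))).card :=
      (Finset.card_biUnion hdisj).symm
    have h2 : (W.biUnion (Dd (pr s))).card ≤ (dil (pr s) X + B).card :=
      Finset.card_le_card (Finset.biUnion_subset.2 (hDsub _))
    calc ∑ w ∈ W, ((Dd (pr s) w).card : ℝ) = ((∑ w ∈ W, (Dd (pr s) w).card : ℕ) : ℝ) := by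
          push_cast; rfl
      _ ≤ _ := by rw [h1]; exact_mod_cast h2
  -- the number of bad sets
  set bad : Finset (Finset ℕ) := P.powerset.filter fun s => ¬ good s with hbad
  have hPc : (0 : ℝ) < D := by
    rcases (Nat.cast_nonneg (α := ℝ) D).lt_or_eq with h | h
    · exact h
    · rw [← h, mul_zero] at hβ
      have : 0 < 2 * ((V.card : ℝ) * Y.card) ^ 2 := by positivity
      linarith
  have hpair : ∀ w ∈ Z, ∀ w' ∈ Z, ¬ Q ∣ w.1 - w'.1 → D * (P.powerset.filter fun s =>
      L ∣ pr s * (w.1 - w'.1) + (w.2 - w'.2)).card ≤ 2 * 2 ^ P.card := by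
    intro w hw w' hw' hne
    rcases (P.powerset.filter fun s =>
      L ∣ pr s * (w.1 - w'.1) + (w.2 - w'.2)).eq_empty_or_nonempty with h0 | ⟨s0, hs0⟩
    · rw [h0]; simp
    · refine le_trans (Nat.mul_le_mul_left _ (Finset.card_le_card ?_))
        (hgen ((pr s0 : ℤ) : ZMod (q ^ a)))
      intro s hs
      rw [Finset.mem_filter] at hs hs0 ⊢
      refine ⟨hs.1, ?_⟩
      have h1 : L ∣ (pr s - pr s0) * (w.1 - w'.1) := by
        have := dvd_sub hs.2 hs0.2
        have e : pr s * (w.1 - w'.1) + (w.2 - w'.2) - (pr s0 * (w.1 - w'.1) + (w.2 - w'.2)) =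
          (pr s - pr s0) * (w.1 - w'.1) := by ring
        rwa [e] at this
      have h2 := pow_dvd_left hq h1 hne
      rw [← sub_eq_zero, ← Int.cast_sub, ZMod.intCast_zmod_eq_zero_iff_dvd]
      push_cast
      exact h2
  have hbadc : (bad.card : ℝ) ≤ β * 2 ^ P.card := by
    have h1 : bad ⊆ (Z ×ˢ Z).biUnion fun a => if Q ∣ a.1.1 - a.2.1 then ∅ else
        P.powerset.filter fun s => L ∣ pr s * (a.1.1 - a.2.1) + (a.1.2 - a.2.2) := by
      intro s hs
      rw [hbad, Finset.mem_filter] at hs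
      obtain ⟨hsP, hs⟩ := hs
      simp only [hgood] at hs
      push Not at hs
      obtain ⟨w, hw, w', hw', hd, hne⟩ := hs
      rw [Finset.mem_biUnion]
      refine ⟨(w, w'), Finset.mk_mem_product hw hw', ?_⟩
      rw [if_neg hne, Finset.mem_filter]
      exact ⟨hsP, hd⟩
    have h2 : D * bad.card ≤ (Z.card * Z.card) * (2 * 2 ^ P.card) := by
      calc D * bad.card ≤ D * ∑ a ∈ Z ×ˢ Z, (if Q ∣ a.1.1 - a.2.1 then ∅ else
            P.powerset.filter fun s => L ∣ pr s * (a.1.1 - a.2.1) + (a.1.2 - a.2.2)).card :=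
            Nat.mul_le_mul_left _ ((Finset.card_le_card h1).trans Finset.card_biUnion_le)
        _ = ∑ a ∈ Z ×ˢ Z, D * (if Q ∣ a.1.1 - a.2.1 then ∅ else
            P.powerset.filter fun s => L ∣ pr s * (a.1.1 - a.2.1) + (a.1.2 - a.2.2)).card := by
            rw [Finset.mul_sum]
        _ ≤ ∑ a ∈ Z ×ˢ Z, 2 * 2 ^ P.card := by
            refine Finset.sum_le_sum fun a ha => ?_
            rw [Finset.mem_product] at ha
            split_ifs with h
            · simp
            · exact hpair _ ha.1 _ ha.2 h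
        _ = (Z.card * Z.card) * (2 * 2 ^ P.card) := by
            rw [Finset.sum_const, Finset.card_product, smul_eq_mul]
    have h3 : (D : ℝ) * bad.card ≤ (Z.card * Z.card) * (2 * 2 ^ P.card) := by
      exact_mod_cast h2
    have h4 : (D : ℝ) * bad.card ≤ D * (β * 2 ^ P.card) := by
      refine h3.trans ?_
      rw [hZc]
      have h5 : (0 : ℝ) < 2 ^ P.card := by positivity
      nlinarith
    exact le_of_mul_le_mul_left h4 hPc
  -- averaging
  have hN : (0 : ℝ) < 2 ^ P.card := by positivity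
  have hlogW : 0 ≤ Real.log W.card := Real.log_nonneg hWc1
  have hsum : (1 - β) * 2 ^ P.card * Real.log W.card +
      ∑ s ∈ P.powerset, (∑ w ∈ W, Real.log ((Dd (pr s) w).card : ℝ)) / W.card ≤
      ∑ s ∈ P.powerset, Real.log ((dil (pr s) X + B).card : ℝ) := by
    have h1 : ∑ s ∈ P.powerset, ((∑ w ∈ W, Real.log ((Dd (pr s) w).card : ℝ)) / W.card +
        if good s then Real.log W.card else 0) ≤
        ∑ s ∈ P.powerset, Real.log ((dil (pr s) X + B).card : ℝ) := by
      refine Finset.sum_le_sum fun s _ => ?_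
      split_ifs with h
      · have := hgood_case s h; linarith
      · rw [add_zero]; exact hbad_case s
    rw [Finset.sum_add_distrib, ← Finset.sum_filter, Finset.sum_const, nsmul_eq_mul] at h1
    have h2 : ((P.powerset.filter good).card : ℝ) + bad.card = 2 ^ P.card := by
      have := Finset.card_filter_add_card_filter_not (s := P.powerset) good
      rw [Finset.card_powerset] at this
      exact_mod_cast this
    have h3 : (1 - β) * 2 ^ P.card ≤ ((P.powerset.filter good).card : ℝ) := by linarith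
    have h4 := mul_le_mul_of_nonneg_right h3 hlogW
    linarith
  have hlog : Real.log W.card = Real.log T.card + Real.log U.card := by
    rw [hWc, Real.log_mul hTc.ne' hUc.ne']
  rw [← hlog, ← hWc]
  have hexp : ∑ t ∈ T, ∑ v ∈ U, tau P (cls Q X t) (cls Q B v) =
      (∑ s ∈ P.powerset, ∑ w ∈ W, Real.log ((Dd (pr s) w).card : ℝ)) / 2 ^ P.card := by
    rw [hW, ← Finset.sum_product', Finset.sum_comm, Finset.sum_div]
    rfl
  rw [hexp]
  unfold tau
  rw [le_div_iff₀ hN]
  rw [← Finset.sum_div] at hsum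
  have e : ((1 - β) * Real.log W.card + (∑ s ∈ P.powerset, ∑ w ∈ W,
      Real.log ((Dd (pr s) w).card : ℝ)) / 2 ^ P.card / W.card) * 2 ^ P.card =
      (1 - β) * 2 ^ P.card * Real.log W.card +
      (∑ s ∈ P.powerset, ∑ w ∈ W, Real.log ((Dd (pr s) w).card : ℝ)) / W.card := by
    field_simp
  rw [e]
  exact hsum

end Pool.Agent.Run7.h386.GM
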